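import Pool.Agent.H34.TAM.Stmts2

/-!
Row AUT: invariance under automorphisms of the free algebra.
-/

set_option autoImplicit false

noncomputable section

open Filter
open scoped Topology TensorProduct

namespace Pool.AUT

open Pool.CGR Pool.CGS Pool.TAM MulOpposite

namespace H50

/-- `φ δ₀ ψ` -/
def cj {m : ℕ} (φ ψ : Fr m →ₐ[ℂ] Fr m) (δ₀ : Fr m →ₗ[ℂ] Fr m) : Fr m →ₗ[ℂ] Fr m :=
  φ.toLinearMap ∘ₗ δ₀ ∘ₗ ψ.toLinearMap

theorem cj_apply {m : ℕ} (φ ψ : Fr m →ₐ[ℂ] Fr m) (δ₀ : Fr m →ₗ[ℂ] Fr m) (a : Fr m) :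
    cj φ ψ δ₀ a = φ (δ₀ (ψ a)) := rfl

theorem cj_der {m : ℕ} (φ ψ : Fr m →ₐ[ℂ] Fr m) (h : ∀ a, φ (ψ a) = a)
    (δ₀ : Fr m →ₗ[ℂ] Fr m) (hδ : IsDer δ₀) : IsDer (cj φ ψ δ₀) := by
  intro a b
  rw [cj_apply, cj_apply, cj_apply, map_mul, hδ, map_add, map_mul, map_mul, h, h]

theorem lift_comp {m : ℕ} {A : Type} [Ring A] [Algebra ℂ A] (x : Fin m → A)
    (φ : Fr m →ₐ[ℂ] Fr m) (a : Fr m) :
    FreeAlgebra.lift ℂ (fun j => FreeAlgebra.lift ℂ x (φ (io j))) a =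
      FreeAlgebra.lift ℂ x (φ a) := by
  have h : FreeAlgebra.lift ℂ (fun j => FreeAlgebra.lift ℂ x (φ (io j))) =
      (FreeAlgebra.lift ℂ x).comp φ := by
    apply FreeAlgebra.hom_ext
    funext j
    simp
  rw [h]
  rfl

end H50

open H50 in
theorem aut_thm (h1 : PDXStmt) (h2 : DRXStmt) (h3 : JACStmt) (h4 : TDRStmt) (h5 : DPEStmt)
    (h6 : CPEStmt) (h7 : BNDStmt) : AUTStmt := by
  intro hN m A _ τ hτ x φ ψ hφψ hψφ hY
  obtain ⟨D, hD⟩ := h1 m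
  set y : Fin m → A := fun j => FreeAlgebra.lift ℂ x (φ (io j)) with hy
  have hLy : ∀ a, FreeAlgebra.lift ℂ y a = FreeAlgebra.lift ℂ x (φ a) := lift_comp x φ
  have htxy : tx τ y = tx τ x ∘ₗ φ.toLinearMap := by
    apply LinearMap.ext
    intro a
    show τ (FreeAlgebra.lift ℂ y a) = τ (FreeAlgebra.lift ℂ x (φ a))
    rw [hLy]
  have ht : ∀ a b, tx τ x (a * b) = tx τ x (b * a) := by
    intro a b
    show τ (FreeAlgebra.lift ℂ x (a * b)) = τ (FreeAlgebra.lift ℂ x (b * a))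
    rw [map_mul (FreeAlgebra.lift ℂ x), map_mul (FreeAlgebra.lift ℂ x), hτ.comm]
  obtain ⟨W, hW⟩ := h3 m D hD φ ψ hφψ hψφ (tx τ x) ht
  have hB := fun k : Fin m => h7 hN m A τ hτ y (ψ (io k))
  choose C hC0 hC using hB
  obtain ⟨hx1, hx2, hx3⟩ := h5 m A τ x D hD
  obtain ⟨-, hy2, hy3⟩ := h5 m A τ y D hD
  have hCt : 0 ≤ ∑ k, C k := Finset.sum_nonneg fun k _ => hC0 k
  intro ε hε
  obtain ⟨H, hH⟩ := hY (ε / (1 + ∑ k, C k)) (by positivity)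
  obtain ⟨H', hH'⟩ := hx1 (ψ (pe io H + W))
  refine ⟨H', fun i P => ?_⟩
  set q : Fr m := pe io P with hq
  obtain ⟨δ₀, hδ₀, hδ₀q⟩ := h2 m (fun k => if k = i then q else 0)
  have hδ : IsDer (cj φ ψ δ₀) := cj_der φ ψ hφψ δ₀ hδ₀
  -- the Jacobian
  have hJ := hW (cj φ ψ δ₀) hδ (fun j => if j = i then q else 0) (by
    intro j
    rw [cj_apply, hψφ, hδ₀q])
  have hE0 : ∑ j, tt (tx τ x) (ph φ (D j (if j = i then q else 0))) = dp τ y i P := by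
    rw [Finset.sum_eq_single i]
    · rw [if_pos rfl, ← ((h4 m).2 (tx τ x)).2.2, ← htxy, hy3 i P]
    · intro j _ hj
      rw [if_neg hj, map_zero, map_zero, map_zero]
    · intro h
      exact absurd (Finset.mem_univ i) h
  rw [hE0] at hJ
  -- polynomials for the directions
  have hPk := fun k : Fin m => hx1 (cj φ ψ δ₀ (io k))
  choose Q hQ using hPk
  -- the cyclic gradients
  have hE2 : τ (cp y i H' * pe y P) =
      tx τ x (cj φ ψ δ₀ (pe io H)) + tx τ x (cj φ ψ δ₀ W) := by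
    have h8 := h6 m A τ hτ.comm y δ₀ hδ₀ H'
    rw [hH'] at h8
    have h9 : tx τ y (δ₀ (ψ (pe io H + W))) =
        tx τ x (cj φ ψ δ₀ (pe io H)) + tx τ x (cj φ ψ δ₀ W) := by
      rw [htxy, ← map_add, ← map_add]
      rfl
    rw [h9] at h8
    rw [h8, Finset.sum_eq_single i]
    · rw [hδ₀q, if_pos rfl, hq, hy2]
    · intro j _ hj
      rw [hδ₀q, if_neg hj, map_zero, mul_zero, map_zero]
    · intro h
      exact absurd (Finset.mem_univ i) h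
  have hE3 : tx τ x (cj φ ψ δ₀ (pe io H)) = ∑ k, τ (cp x k H * pe x (Q k)) := by
    rw [h6 m A τ hτ.comm x (cj φ ψ δ₀) hδ H]
    refine Finset.sum_congr rfl fun k _ => ?_
    rw [← hQ k, hx2]
  have hdiff : dp τ y i P - τ (cp y i H' * pe y P) =
      ∑ k, (dp τ x k (Q k) - τ (cp x k H * pe x (Q k))) := by
    rw [hJ, hE2, hE3, Finset.sum_sub_distrib]
    have h8 : ∑ k, dp τ x k (Q k) = ∑ k, tt (tx τ x) (D k (cj φ ψ δ₀ (io k))) := by
      refine Finset.sum_congr rfl fun k _ => ?_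
      rw [hx3 k (Q k), hQ k]
    rw [h8]
    ring
  have hpy : FreeAlgebra.lift ℂ y q = pe y P := hy2 P
  have hk : ∀ k, n2 τ (pe x (Q k)) ≤ C k * n2 τ (pe y P) := by
    intro k
    have h8 : pe x (Q k) = FreeAlgebra.lift ℂ y (δ₀ (ψ (io k))) := by
      rw [← hx2, hQ k, cj_apply, hLy]
    rw [h8, ← hpy]
    exact hC k i q δ₀ hδ₀ hδ₀q
  have hn : 0 ≤ n2 τ (pe y P) := Real.sqrt_nonneg _
  have hε' : 0 ≤ ε / (1 + ∑ k, C k) := by positivity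
  rw [hdiff]
  calc ‖∑ k, (dp τ x k (Q k) - τ (cp x k H * pe x (Q k)))‖
      ≤ ∑ k, ‖dp τ x k (Q k) - τ (cp x k H * pe x (Q k))‖ := norm_sum_le _ _
    _ ≤ ∑ k, ε / (1 + ∑ k, C k) * (C k * n2 τ (pe y P)) :=
        Finset.sum_le_sum fun k _ => (hH k (Q k)).trans (mul_le_mul_of_nonneg_left (hk k) hε')
    _ = ε / (1 + ∑ k, C k) * ((∑ k, C k) * n2 τ (pe y P)) := by
        rw [← Finset.mul_sum, ← Finset.sum_mul]
    _ ≤ ε / (1 + ∑ k, C k) * ((1 + ∑ k, C k) * n2 τ (pe y P)) := by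
        apply mul_le_mul_of_nonneg_left _ hε'
        apply mul_le_mul_of_nonneg_right _ hn
        linarith
    _ = ε * n2 τ (pe y P) := by
        have h9 : (1 + ∑ k, C k) ≠ 0 := by positivity
        field_simp

end Pool.AUT
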